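import Pool.Agent.Q67.Det.Kun

/-!
# MP_a60482_ag: the Kunneth standard conjecture and determinant classes
-/

set_option autoImplicit false

open CategoryTheory AlgebraicGeometry

universe u v

namespace Pool.Agent.Results.MP_a60482_ag.DeterminantPairs

open Pool.Agent.H914 VarClass Obj WeilCohomology Pool.Agent.Q67.Det

/-- Let `X` be a smooth proper variety of dimension `n` and `W` a Weil cohomology theory with
coefficient field `K` (hard Lefschetz is not assumed). For `0 ≤ i ≤ 2 n` let `b` be the Betti number
of `H^i(X)`, and let `ω_i` be the determinant class of `H^i(X)`, a class in the cohomology of `X^b`.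

The Kunneth component `π^i` of `X` is algebraic (in the `K`-span of the classes of algebraic cycles)
if and only if the class `ω_(2n-i) × ω_i` on `X^b × X^b` is algebraic. Hence the following are
equivalent: all Kunneth components of `X` are algebraic (conjecture C); the classes
`ω_(2n-i) × ω_i` are algebraic for all `i`; they are algebraic for all `i < n`. -/
theorem result {k : Type u} [Field k] {𝒱 : VarClass k} {ops : CycleOps 𝒱}
    (W : WeilCohomology.{u, v} ops) (X : 𝒱.Obj) :
    (∀ i ≤ 2 * X.dim, (KunnethIn W X i ↔ DetPair W X i)) ∧
    List.TFAE [∀ i ≤ 2 * X.dim, KunnethIn W X i,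
      ∀ i ≤ 2 * X.dim, DetPair W X i,
      ∀ i < X.dim, DetPair W X i] :=
  ⟨fun _ hi => kunneth_iff_det hi, kunneth_tfae W X⟩

end Pool.Agent.Results.MP_a60482_ag.DeterminantPairs
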