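import Pool.Agent.Q136.KM.Main

/-!
# MP_a60482_ag: the Kunneth standard conjecture in the middle degree of one parity
-/

set_option autoImplicit false

open CategoryTheory AlgebraicGeometry

universe u v

namespace Pool.Agent.Results.MP_a60482_ag.MiddleDegree

open Pool.Agent.H914 VarClass Obj WeilCohomology Pool.Agent.TH720.LB Pool.Agent.Q136.KM

/-- Let `W` be a Weil cohomology theory with coefficient field `K`, and `C` a curve with
`H^1(C) ≠ 0` and a divisor of degree one. Let `q` be one of the properties of being even and of being odd.

1. For each variety `X` the following are equivalent: all Kunneth components of `X` are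
`K`-combinations of classes of algebraic cycles; and the following statements for all the varieties
`Y = X × C^m`, `m ≤ dim X + 1`, whose dimension `N` has the property `q`: the Kunneth component of
the middle degree `N` is such a combination; the external product of the determinant classes of two
bases of `H^N(Y)` is such a combination; each class `y` of degree `N` is separated from each class
`y'` of a degree `j < N` by an algebraic correspondence, which may depend on `y` and `y'`; the
algebraic cycles on `Y × Y` detect the classes `y × w + y' × w'`, `y`, `w` of degree `N` with
`tr (y w) ≠ 0`, `y'` and `w'` of degrees `j < N` and `2 N - j`.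

2. The Kunneth components of all varieties are algebraic if and only if one (each) of the four
statements holds for all varieties `Y` whose dimension `N` has the property `q`. -/
theorem result {k : Type u} [Field k] {𝒱 : VarClass k} {ops : CycleOps 𝒱}
    (W : WeilCohomology.{u, v} ops) (C : 𝒱.Obj) (c : C.Cycles) (hC : CurveLike W C c)
    (q : ℕ → Prop) (hq : q = Even ∨ q = Odd) :
    (∀ X : 𝒱.Obj, OneVariety W C q X) ∧ AllVarieties W q :=
  ⟨fun X => conjectureC_tfae hC.to X hq, conjectureC_tfae_all W hC.to hq⟩

end Pool.Agent.Results.MP_a60482_ag.MiddleDegree
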