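import Pool.Agent.Q282.UK.Ret

/-!
# MP_a60482_ag: the Kunneth standard conjecture and trilinear forms
-/

set_option autoImplicit false

open CategoryTheory Limits AlgebraicGeometry Pool.Agent.Y116.UV Pool.Agent.Q282.UM
  Pool.Agent.Q282.UK

namespace Pool.Agent.Results.MP_a60482_ag.TrilinearForms

universe v u

/-- The Weil cohomology on the category `C` of Chow motives: `H M` is the total cohomology of the
motive `M`, and `proj i M` is the projection of `H M` onto its part of degree `i`. -/
structure Cohomology (C : Type u) [Category.{v} C] (K : Type) [Field K] where
  H : C ⥤ ModuleCat.{0} K
  proj : ℤ → (H ⟶ H)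

/-- The conjecture `C(M)`: for all `i` the projection of the cohomology of `M` onto its part of degree
`i` is algebraic, that is, a `K`-linear combination of endomorphisms of `M`. -/
def KunnethC {C : Type u} [Category.{v} C] {K : Type} [Field K] (R : Cohomology C K) (M : C) : Prop :=
  ∀ i, (R.proj i).app M ∈ Submodule.span K (Set.range fun f : M ⟶ M => R.H.map f)

/-- **The Künneth standard conjecture and trilinear forms.** Let `C` be the category of Chow motives
over the perfect field `k` with rational coefficients, with a Weil cohomology, and let `W(X)` be
the weight complex of the scheme `X` of finite type over `k`.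

* For all `N`, the conjecture `C` is true for all smooth projective `X` over `k` of dimension at most
  `N` (and for the twists of their motives) if and only if for all cubic hypersurfaces
  `Y : T(x, y, z) = 1`, `T` a trilinear form over `k` with a block of at most `N + 2` variables, the
  twists of `W(Y)` are direct summands, in the homotopy category, of complexes all of whose terms
  satisfy the conjecture `C`.
* The conjecture `C` is true for all smooth projective `X` over `k` if and only if this is true for all
  trilinear forms over `k`. -/
theorem result {C : Type u} [Category.{v} C] [Preadditive C] [HasZeroObject C]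
    [HasBinaryBiproducts C] [HasFiniteBiproducts C] {K : Type} [Field K] (R : Cohomology C K)
    (hR : R.H.Additive) (k : Type) [Field k] [PerfectField k] (D : Weights k C)
    (hD : IsWeights D) :
    (∀ N : ℕ, ForVarieties D (KunnethC R) N ↔ ForForms D (TermsIn (KunnethC R)) N) ∧
    (ForAllVarieties D (KunnethC R) ↔ ForAllForms D (TermsIn (KunnethC R))) := by
  have h : IsExtension (KunnethC R) (TermsIn (KunnethC R)) :=
    ext_terms (thick_all fun i => thick_span R.H hR (R.proj i))
  exact ⟨forms_dim hD h, forms_all hD h⟩

end Pool.Agent.Results.MP_a60482_ag.TrilinearForms
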