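import Pool.Agent.Q115.DU.Mot

/-!
# Künneth components and weight complexes of cubic hypersurfaces, for a Weil cohomology

Let `k` be an algebraically closed field, `H` a Weil cohomology theory with coefficient field `K`, and
`A` the category of homological motives over `k` with coefficients in `K`: the morphisms are the
`K`-linear combinations of algebraic classes. For a scheme `X` of finite type over `k` let `Mc X` be its
weight complex with compact support in the homotopy category `K(A)` (Gillet, Soulé, Bondarko), with
coefficients extended to `K`. Let `h w M` be the part of weight `w` of the realization of `M`, so `h w`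
is `H_{-w}(Y)`, the dual of `H^{-w}(Y)`, for the motive of a smooth projective `Y`. The cohomology in
position `p` of the complex `h w (Mc X)` is denoted by `Gr^W_w H_{-w-p}(X)`.

A cubic is a smooth affine hypersurface `Z : T(x, y, z) = 1`, where `T` is a trilinear form with
coefficients in `k`.

**Theorem.** (1) For all smooth projective `Y_1, …, Y_r` there is ONE cubic `Z` such that the
conjecture `C(Y_i)` is true for all `i` if for all `i` some endomorphism of the complex `Mc Z` in `K(A)`
induces the identity on `Gr^W_i H_{3-i}(Z)` and zero on `Gr^W_w H_{3-w}(Z)` for all `w ≠ i`.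

(2) The conjecture `C` is true for all smooth projective `Y` if and only if for all cubics `Z` and all
`i` some endomorphism of `Mc Z` induces the identity on `Gr^W_i H_j(Z)` for all `j` and zero on
`Gr^W_w H_j(Z)` for all `j` and all `w ≠ i`.

(3) The conjecture `C` is true for all smooth projective `Y` if and only if for all cubics `Z` and all
`i` some endomorphism of `Mc Z` induces the identity on `Gr^W_i H_{3-i}(Z)` and zero on
`Gr^W_w H_{3-w}(Z)` for all `w ≠ i`.
-/

set_option autoImplicit false

open CategoryTheory CategoryTheory.Limits AlgebraicGeometry Pretriangulated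
  Pool.Agent.Y116.UV Pool.Agent.Q193.LT Pool.Agent.Q115.DU

namespace Pool.Agent.Results.MP_a60482_ag.WeightComplexesOfCubics

universe v u v' u'

variable {k : Type} [Field k] {A : Type u} [Category.{v} A] [Preadditive A] [HasZeroObject A]
  [HasBinaryBiproducts A] {E : Type u'} [Category.{v'} E] [Abelian E]

/-- For every `i` the projector of the realization of the motive `M` onto the part of weight `i` is
induced by an endomorphism of `M`. -/
def Kunneth (D : MotData k A E) (M : A) : Prop :=
  ∀ i : ℤ, ∃ π : M ⟶ M, ∀ w, (w = i → (D.h w).map π = 𝟙 _) ∧ (w ≠ i → (D.h w).map π = 0)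

/-- For every `i` there is an endomorphism of the complex `K` in the homotopy category which induces
the identity on the cohomology of the complex `h i K` in all positions and zero on the cohomology
of `h w K`, `w ≠ i`. -/
def KunnethAll (D : MotData k A E) [∀ w, (D.h w).Additive] (K : HK A) : Prop :=
  ∀ i : ℤ, ∃ π : K ⟶ K, ∀ w p, (w = i → (coh D.h (w, p)).map π = 𝟙 _) ∧
    (w ≠ i → (coh D.h (w, p)).map π = 0)

/-- The same only for the cohomology in the position `p`. -/
def KunnethAt (D : MotData k A E) [∀ w, (D.h w).Additive] (p : ℤ) (K : HK A) : Prop :=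
  ∀ i : ℤ, ∃ π : K ⟶ K, ∀ w, (w = i → (coh D.h (w, p)).map π = 𝟙 _) ∧
    (w ≠ i → (coh D.h (w, p)).map π = 0)

/-- the sets with one element -/
def single : Set (Set ℤ) := {V | ∃ i, V = {i}}

lemma translates_single : Translates single := by
  rintro _ ⟨i, rfl⟩
  refine ⟨⟨i - 2, ?_⟩, ⟨i + 2, ?_⟩⟩
  · ext w
    change w + 2 = i ↔ w = i - 2
    omega
  · ext w
    change w - 2 = i ↔ w = i + 2
    omega

variable {D : MotData k A E}

omit [HasZeroObject A] [HasBinaryBiproducts A] in
lemma kunneth_iff (M : A) : Projectors D single M ↔ Kunneth D M := by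
  constructor
  · intro h i
    exact h {i} ⟨i, rfl⟩
  · rintro h _ ⟨i, rfl⟩
    exact h i

variable [∀ w, (D.h w).Additive]

omit [HasZeroObject A] [HasBinaryBiproducts A] in
lemma kunnethAll_iff (K : HK A) : ProjectorsC D single K ↔ KunnethAll D K := by
  constructor
  · intro h i
    obtain ⟨π, hπ⟩ := h {i} ⟨i, rfl⟩
    exact ⟨π, fun w p => hπ (w, p)⟩
  · rintro h _ ⟨i, rfl⟩
    obtain ⟨π, hπ⟩ := h i
    exact ⟨π, fun w => hπ w.1 w.2⟩

omit [HasZeroObject A] [HasBinaryBiproducts A] in
lemma kunnethAt_iff (p : ℤ) (K : HK A) : ProjectorsAt D single p K ↔ KunnethAt D p K := by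
  constructor
  · intro h i
    exact h {i} ⟨i, rfl⟩
  · rintro h _ ⟨i, rfl⟩
    exact h i

/-- `Z` is a hypersurface `T(x, y, z) = 1` over `k`, where `T` is a trilinear form. -/
def Cubic (Z : Sch k) : Prop :=
  ∃ (a b c : ℕ) (T : Fin a → Fin b → Fin c → k), Z = hypS T

lemma cubic_iff (Z : Sch k) : IsCubic Set.univ Z ↔ Cubic Z := by
  constructor
  · rintro ⟨a, b, c, T, -, h⟩
    exact ⟨a, b, c, T, h⟩
  · rintro ⟨a, b, c, T, h⟩
    exact ⟨a, b, c, T, fun _ _ _ => trivial, h⟩

/-- **Künneth components and weight complexes of cubics, for a Weil cohomology.** -/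
theorem result [D.t.functor.Additive] (hD : IsMotData SmoothProj D) :
    (∀ L : List (Sch k), (∀ Y ∈ L, SmoothProj Y) → ∃ Z : Sch k, Cubic Z ∧
      (KunnethAt D (-3) (D.Mc Z) → ∀ Y ∈ L, Kunneth D (D.mot Y))) ∧
    ((∀ Y : Sch k, SmoothProj Y → Kunneth D (D.mot Y)) ↔
      ∀ Z : Sch k, Cubic Z → KunnethAll D (D.Mc Z)) ∧
    ((∀ Y : Sch k, SmoothProj Y → Kunneth D (D.mot Y)) ↔
      ∀ Z : Sch k, Cubic Z → KunnethAt D (-3) (D.Mc Z)) := by
  have h := projectors_cubic hD translates_single Set.univ (Or.inl rfl)
  simp only [kunneth_iff, kunnethAll_iff, kunnethAt_iff, cubic_iff] at h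
  exact h

end Pool.Agent.Results.MP_a60482_ag.WeightComplexesOfCubics
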